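import Pool.Agent.helper15.FH.Final

/-!
# Semiring-homomorphic invariants need not be monotone under fractional homomorphisms

The definitions (`FinGraph`, `Hom`, `join`, `disj`, `blow`, `complete`, `IsSemHom`) are in
`Pool/Agent/helper15/FH/Graph.lean`.

The graphs are `G = X ⋉ (C₅ + C₅)` and `H = X ⋉ K₅`, where `X` is the complement of a sparse
triangle-free regular graph whose eigenvalues are all large compared with minus the degree, and
`d = 2`.
A positive semidefinite kernel and entropy inequalities show that there is no homomorphism from
`G^N` to `K_M * H^N` if `M` is at most `exp (ε N)`; a form of Strassen's duality for preordered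
semirings, proved from Zorn's lemma, then gives the invariant.
-/

set_option autoImplicit false

namespace Pool.Agent.Results.MP_8af768_co.FractionalHomNotMonotone

open Pool.Agent.helper15.FH

/-- **Negative answer to Q1.** There are a semiring-homomorphic graph invariant `η`, finite
graphs `G, H` and `d ≥ 1` with a homomorphism `G ⋉ K_d → H ⋉ K_d` but `η G > η H`. -/
theorem result : ∃ η : FinGraph → ℝ, IsSemHom η ∧ ∃ (G H : FinGraph) (d : ℕ), 1 ≤ d ∧
    Hom (blow G d) (blow H d) ∧ η H < η G :=
  main

end Pool.Agent.Results.MP_8af768_co.FractionalHomNotMonotone
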